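import Pool.Agent.H998.LT.Final2
import Pool.Agent.H665.LT.Seq
import Pool.Agent.H227.LT.Theta
import Pool.Agent.H277.LT.Poisson
import Pool.Agent.H860.LT.TsumZ
import Pool.Agent.H323.LT.Swap
import Pool.Agent.H323.LT.Single
import Pool.Agent.H177.LT.Main
import Pool.Agent.H199.LT.Sigma
import Pool.Agent.H722.LT.Gap
import Pool.Agent.H294.LT.Mult
import Pool.Agent.H294.LT.Kernel
import Pool.Agent.H187.LT.Row
import Pool.Agent.H233.LT.Bdd
import Pool.Agent.H894.LT.Tile
import Pool.Agent.H221.LT.FT
import Pool.Agent.H161.LT.ProdFT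
import Pool.Agent.H784.LT.Abs
import Pool.Agent.H967.LT.TileStep
import Pool.Agent.H190.LT.Misc
import Pool.Agent.H177.LT.WitStep
import Pool.Agent.H30.LT.DualD

set_option autoImplicit false

/-!
# A function tiling with a set of bounded density, but with no lattice

In every dimension `d ≥ 2` there are a real-valued `f ∈ L¹(ℝᵈ)` and a set `Λ` of bounded density
such that `f + Λ` is a tiling at a level `w ≠ 0`, while `f + L` is not a tiling at any level, for
any lattice `L`.

Construction for `d = 2` (`Pool/Agent/H998/LT/Defs.lean` has the list of steps). Let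
`m_0 | m_1 | …` be a fast growing sequence of integers with `m_l / √2 → 1/4` modulo `1` such that
every integer divides some `m_l`, `θ = ∑ 1 / (2 m_i)`. The measure `ρ` which is the sum of the unit
masses on `ℤ ∪ (ℤ + θ)` and `√2` times the unit masses on `√2 (ℤ ∪ (ℤ + θ)) + σ` has very small
Fourier coefficients at the frequencies `m_l` and `m_l / √2`. Multiplying one of the two parts by
the positive function `1 - ∑ Re (c_l e (m_l x))` and similarly the other part, these frequencies are
removed, at the cost of new frequencies `k / √2 ± m_l`, `k ± m_l / √2` with `k ≠ 0`, which do not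
accumulate at `0`. The weighted measure `∑ w(x) δ_x` tiles with every `g` whose Fourier transform
vanishes on the resulting countable set of nonzero frequencies; its closure contains
no set `a ℤ ∖ {0}`, so there is such a `g` with `ĝ ≥ 0` not vanishing at some multiple of every
`a ≠ 0`. A row `(1 / w(x)) ℤ × {x}` in the plane replaces the weight `w(x)`; kernels in
the other variable with Fourier transforms supported in `(-1/4, 1/4)` do not see the period, and an
additional term with vanishing row sums makes the Fourier transform of `f` positive at all points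
with `0 < |ξ₁| < 1/4`.
-/

open MeasureTheory

namespace Pool.Agent.Results.MP_4be4c6_an.NoLattice

/-- `f + Λ` is a tiling at level `w`: `∑_{λ ∈ Λ} f (x - λ) = w` for almost every `x`, with absolute
convergence (`HasSum` is unconditional convergence) -/
def Tiles {d : ℕ} (f : (Fin d → ℝ) → ℝ) (Λ : Set (Fin d → ℝ)) (w : ℝ) : Prop :=
  ∀ᵐ x : Fin d → ℝ, HasSum (fun a : Λ => f (x - a)) w

/-- bounded density: the number of points in the open Euclidean unit balls is bounded -/
def BoundedDensity {d : ℕ} (Λ : Set (Fin d → ℝ)) : Prop :=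
  ∃ M : ℕ, ∀ x : Fin d → ℝ, (Λ ∩ {y | ∑ i, (y i - x i) ^ 2 < 1}).encard ≤ M

/-- the lattice `A ℤᵈ` -/
def lattice {d : ℕ} (A : Matrix (Fin d) (Fin d) ℝ) : Set (Fin d → ℝ) :=
  Set.range fun z : Fin d → ℤ => A.mulVec fun i => (z i : ℝ)

/-- For every `d ≥ 2` there are `f ∈ L¹(ℝᵈ)`, a set `Λ` of bounded density and `w ≠ 0` such that
`f + Λ` is a tiling at level `w`, yet for no lattice `L = A ℤᵈ` and no constant `w'` is `f + L` a
tiling at level `w'`. -/
theorem result (d : ℕ) (hd : 2 ≤ d) :
    ∃ (f : (Fin d → ℝ) → ℝ) (Λ : Set (Fin d → ℝ)) (w : ℝ),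
      Integrable f ∧ BoundedDensity Λ ∧ w ≠ 0 ∧ Tiles f Λ w ∧
      ∀ A : Matrix (Fin d) (Fin d) ℝ, A.det ≠ 0 → ∀ w' : ℝ, ¬ Tiles f (lattice A) w' := by
  have h_theta := Pool.Agent.H227.LT.t_theta
  have h_poisson := Pool.Agent.H277.LT.t_poisson
  have h_single := Pool.Agent.H323.LT.t_single h_poisson Pool.Agent.H860.LT.t_tsumZ
    Pool.Agent.H323.LT.t_swap
  have h_row := Pool.Agent.H187.LT.t_row h_poisson
  have h_kernel := Pool.Agent.H294.LT.t_kernel
  have h_base := Pool.Agent.H998.LT.base Pool.Agent.H665.LT.t_seq h_theta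
    (Pool.Agent.H177.LT.t_wt h_theta) (Pool.Agent.H177.LT.t_main h_theta h_single)
    Pool.Agent.H199.LT.t_sigma (Pool.Agent.H294.LT.t_mult Pool.Agent.H722.LT.t_gap) h_kernel
    Pool.Agent.H233.LT.t_bdd (Pool.Agent.H894.LT.t_tile h_row) Pool.Agent.H221.LT.t_ft
    Pool.Agent.H190.LT.t_pigeon2
  have h_step := Pool.Agent.H998.LT.step h_kernel Pool.Agent.H161.LT.t_prodft
    Pool.Agent.H161.LT.t_tpft Pool.Agent.H784.LT.t_abs (Pool.Agent.H998.LT.t_int h_row)
    Pool.Agent.H998.LT.t_tilestep Pool.Agent.H190.LT.t_bddstep Pool.Agent.H177.LT.t_witstep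
  exact Pool.Agent.H998.LT.final2 h_base h_step Pool.Agent.H30.LT.t_dualD
    Pool.Agent.H190.LT.t_dualbasis d hd

end Pool.Agent.Results.MP_4be4c6_an.NoLattice
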